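import Pool.Agent.Helper16.BZ.Stmts

/-! Module XSW2 (MP_7a8f48_an): the families span a dense subspace of the functions on the phase
space of a skew product. -/

open Finset Filter MeasureTheory Topology
open scoped ComplexConjugate InnerProductSpace

namespace Pool.Agent.Helper16.BZ

/-- the skew product is continuous -/
theorem xsw2_cont {X : Type} [MetricSpace X] {d : ℕ} (S : C(X, X))
    (Φ : C(X, Matrix.unitaryGroup (Fin d) ℂ)) : Continuous (SK S Φ) := by
  unfold SK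
  exact (S.continuous.comp continuous_fst).prodMk
    ((Φ.continuous.comp continuous_fst).mul continuous_snd)

theorem xsw2_const_LMM {X : Type} [MetricSpace X] {ι : Type} (M : Matrix ι ι ℂ) :
    LMM (X := X) (fun _ => M) := by
  intro i j ε hε
  refine ⟨1 / 2, by norm_num, by norm_num, fun t ht ht' θ θ' _ => ?_⟩
  rw [sub_self, norm_zero]
  have h : Real.log t ≤ 0 := Real.log_nonpos ht.le (by linarith)
  exact div_nonneg hε.le (by linarith)

theorem xsw2_val (d : ℕ) : Continuous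
    fun g : Matrix.unitaryGroup (Fin d) ℂ => (g : Matrix (Fin d) (Fin d) ℂ) :=
  continuous_subtype_val

theorem xsw2_ent (X : Type) [MetricSpace X] (d : ℕ) (i j : Fin d) : Continuous
    fun y : XX X d => (y.2 : Matrix (Fin d) (Fin d) ℂ) i j :=
  ((xsw2_val d).comp continuous_snd).matrix_elem i j

/-- the entries -/
def xsw2E (X : Type) [MetricSpace X] (d : ℕ) (i j : Fin d) : C(XX X d, ℂ) :=
  ⟨fun y => (y.2 : Matrix (Fin d) (Fin d) ℂ) i j, xsw2_ent X d i j⟩

theorem st_XSW2 (hXPR : ST_XPR2) : ST_XSW2 := by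
  intro X _ _ d S₀ Φ hΦ
  let α : C(XX X d, ℂ) →⋆ₐ[ℂ] C(XX X d, ℂ) :=
    ContinuousMap.compStarAlgHom' ℂ ℂ ⟨SK S₀ Φ, xsw2_cont S₀ Φ⟩
  let π : C(X, ℂ) →⋆ₐ[ℂ] C(XX X d, ℂ) :=
    ContinuousMap.compStarAlgHom' ℂ ℂ ⟨Prod.fst, continuous_fst⟩
  have hα : ∀ (F : C(XX X d, ℂ)) (y : XX X d), α F y = F (SK S₀ Φ y) := fun F y => rfl
  have hπ : ∀ (F : C(X, ℂ)) (y : XX X d), π F y = F y.1 := fun F y => rfl
  refine ⟨α, π, hα, fun f => by ext y; rfl, ?_⟩
  set S : Set C(XX X d, ℂ) := {x : C(XX X d, ℂ) | ∃ (e : ℕ)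
    (Ψ : C(X, Matrix (Fin e) (Fin e) ℂ)) (v : Fin e → C(XX X d, ℂ)),
    Fam α π Ψ v ∧ ∃ (f : C(X, ℂ)) (i : Fin e), π f * v i = x} with hS
  -- functions of the base point
  have hbase : ∀ f : C(X, ℂ), π f ∈ S := by
    intro f
    refine ⟨1, ContinuousMap.const _ 1, fun _ => 1, ⟨?_, xsw2_const_LMM _, ?_⟩, f, 0, mul_one _⟩
    · intro x
      rw [ContinuousMap.const_apply]
      exact one_mem _
    · intro i
      ext y
      rw [hα]
      simp only [Finset.univ_unique, Finset.sum_singleton, ContinuousMap.mul_apply, hπ]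
      have hi : i = 0 := Subsingleton.elim _ _
      subst hi
      show (1 : ℂ) = (1 : Matrix (Fin 1) (Fin 1) ℂ) 0 0 * 1
      rw [Matrix.one_apply_eq, mul_one]
  -- entries
  have hent : ∀ i j : Fin d, xsw2E X d i j ∈ S := by
    intro i j
    refine ⟨d, ⟨fun θ => (Φ θ : Matrix (Fin d) (Fin d) ℂ), (xsw2_val d).comp Φ.continuous⟩,
      fun i => xsw2E X d i j, ⟨fun θ => (Φ θ).2, hΦ, ?_⟩, 1, i, ?_⟩
    · intro i
      ext y
      rw [hα, ContinuousMap.sum_apply]
      show ((Φ y.1 : Matrix (Fin d) (Fin d) ℂ) * (y.2 : Matrix (Fin d) (Fin d) ℂ)) i j = _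
      rw [Matrix.mul_apply]
      rfl
    · rw [map_one, one_mul]
  have hone : (1 : C(XX X d, ℂ)) ∈ S := by
    have h := hbase 1
    rw [map_one] at h
    exact h
  have hmul : ∀ x ∈ S, ∀ y ∈ S, x * y ∈ S := by
    rintro x ⟨e, Ψ, v, hv, f, i, rfl⟩ y ⟨e', Ψ', v', hv', f', i', rfl⟩
    obtain ⟨e2, Ψ2, w, hw, k, hk⟩ :=
      (hXPR C(XX X d, ℂ) X α π e e' Ψ Ψ' v v' hv hv').1 i i'
    refine ⟨e2, Ψ2, w, hw, f * f', k, ?_⟩
    rw [map_mul, hk]
    ring
  have hstar : ∀ x ∈ S, star x ∈ S := by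
    rintro x ⟨e, Ψ, v, hv, f, i, rfl⟩
    obtain ⟨e2, Ψ2, w, hw, k, hk⟩ := (hXPR C(XX X d, ℂ) X α π e e Ψ Ψ v v hv hv).2 i
    refine ⟨e2, Ψ2, w, hw, star f, k, ?_⟩
    rw [map_star, hk, star_mul, mul_comm]
  have hspan : ∀ x ∈ Submodule.span ℂ S, star x ∈ Submodule.span ℂ S := by
    intro x hx
    induction hx using Submodule.span_induction with
    | mem x h => exact Submodule.subset_span (hstar x h)
    | zero => rw [star_zero]; exact Submodule.zero_mem _
    | add x y _ _ hx hy => rw [star_add]; exact Submodule.add_mem _ hx hy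
    | smul c x _ hx => rw [star_smul]; exact Submodule.smul_mem _ _ hx
  -- the star algebra generated by `S` is the span
  have hadj : ∀ x ∈ StarAlgebra.adjoin ℂ S, x ∈ Submodule.span ℂ S := by
    intro x hx
    induction hx using StarAlgebra.adjoin_induction with
    | mem x h => exact Submodule.subset_span h
    | algebraMap c =>
      rw [Algebra.algebraMap_eq_smul_one]
      exact Submodule.smul_mem _ _ (Submodule.subset_span hone)
    | add x y _ _ hx hy => exact Submodule.add_mem _ hx hy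
    | mul x y _ _ hx hy =>
      have h1 : x * y ∈ Submodule.span ℂ S * Submodule.span ℂ S := Submodule.mul_mem_mul hx hy
      rw [Submodule.span_mul_span] at h1
      refine Submodule.span_mono ?_ h1
      rintro z ⟨a, ha, b, hb, rfl⟩
      exact hmul a ha b hb
    | star x _ hx => exact hspan x hx
  have hsep : (StarAlgebra.adjoin ℂ S).SeparatesPoints := by
    intro x y hxy
    by_cases h1 : x.1 = y.1
    · have h2 : x.2 ≠ y.2 := fun h => hxy (Prod.ext h1 h)
      have h3 : (x.2 : Matrix (Fin d) (Fin d) ℂ) ≠ (y.2 : Matrix (Fin d) (Fin d) ℂ) :=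
        fun h => h2 (Subtype.ext h)
      obtain ⟨i, hi⟩ : ∃ i, ∃ j, (x.2 : Matrix (Fin d) (Fin d) ℂ) i j
          ≠ (y.2 : Matrix (Fin d) (Fin d) ℂ) i j := by
        by_contra hc
        push Not at hc
        exact h3 (Matrix.ext hc)
      obtain ⟨j, hij⟩ := hi
      exact ⟨_, ⟨_, StarAlgebra.subset_adjoin ℂ S (hent i j), rfl⟩, hij⟩
    · let f : C(X, ℂ) := ⟨fun z => ((dist x.1 z : ℝ) : ℂ), by fun_prop⟩
      refine ⟨_, ⟨_, StarAlgebra.subset_adjoin ℂ S (hbase f), rfl⟩, ?_⟩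
      show ((dist x.1 x.1 : ℝ) : ℂ) ≠ ((dist x.1 y.1 : ℝ) : ℂ)
      rw [dist_self]
      intro h
      have h4 : (0 : ℝ) = dist x.1 y.1 := Complex.ofReal_injective h
      exact h1 (dist_eq_zero.1 h4.symm)
  have htop := ContinuousMap.starSubalgebra_topologicalClosure_eq_top_of_separatesPoints
    (StarAlgebra.adjoin ℂ S) hsep
  refine Set.eq_univ_of_univ_subset fun f _ => ?_
  have hf : f ∈ (StarAlgebra.adjoin ℂ S).topologicalClosure := by
    rw [htop]
    trivial
  have hf2 : f ∈ closure ((StarAlgebra.adjoin ℂ S : StarSubalgebra ℂ C(XX X d, ℂ)) :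
      Set C(XX X d, ℂ)) := hf
  exact closure_mono (fun x hx => hadj x hx) hf2

end Pool.Agent.Helper16.BZ
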